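import Mathlib

namespace Pool.Agent.Results.MP_0a2dc5_al.NoEmbed

universe u v

section Vec
variable {D : Type u} [DivisionRing D] {V : Type v} [AddCommGroup V] [Module D V]

/-- A 3-frame of subspaces over a base subspace `O`. -/
structure Frame (O A1 A2 A3 C : Submodule D V) : Prop where
  o1 : O ≤ A1
  o2 : O ≤ A2
  o3 : O ≤ A3
  oc : O ≤ C
  ne : ¬ A1 ≤ O
  top : A1 ≤ C ⊔ (A2 ⊔ A3)
  i1 : A1 ⊓ (A2 ⊔ A3) ≤ O
  i2 : A2 ⊓ (A1 ⊔ A3) ≤ O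
  i3 : A3 ⊓ (A1 ⊔ A2) ≤ O
  c1 : C ⊓ (A1 ⊔ A2) ≤ O
  c2 : C ⊓ (A1 ⊔ A3) ≤ O

variable {O A1 A2 A3 C : Submodule D V}

lemma Frame.pick (h : Frame O A1 A2 A3 C) :
    ∃ x1 ∈ A1, ∃ x2 ∈ A2, ∃ x3 ∈ A3, x1 ∉ O ∧ x1 + x2 + x3 ∈ C := by
  obtain ⟨x1, h1, h1'⟩ := SetLike.not_le_iff_exists.1 h.ne
  obtain ⟨y, hy, z, hz, e⟩ := Submodule.mem_sup.1 (h.top h1)
  obtain ⟨a, ha, b, hb, e'⟩ := Submodule.mem_sup.1 hz
  refine ⟨x1, h1, -a, A2.neg_mem ha, -b, A3.neg_mem hb, h1', ?_⟩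
  have : x1 + -a + -b = y := by rw [← e, ← e']; abel
  rw [this]; exact hy

lemma Frame.ind (h : Frame O A1 A2 A3 C) {a b c : V} (ha : a ∈ A1) (hb : b ∈ A2) (hc : c ∈ A3)
    (e : a + b + c = 0) : a ∈ O ∧ b ∈ O ∧ c ∈ O := by
  refine ⟨h.i1 ⟨ha, ?_⟩, h.i2 ⟨hb, ?_⟩, h.i3 ⟨hc, ?_⟩⟩
  · have : a = -(b + c) := by rw [← sub_eq_zero, ← e]; abel
    rw [this]; exact Submodule.neg_mem _ (Submodule.add_mem_sup hb hc)
  · have : b = -(a + c) := by rw [← sub_eq_zero, ← e]; abel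
    rw [this]; exact Submodule.neg_mem _ (Submodule.add_mem_sup ha hc)
  · have : c = -(a + b) := by rw [← sub_eq_zero, ← e]; abel
    rw [this]; exact Submodule.neg_mem _ (Submodule.add_mem_sup ha hb)

lemma Frame.fano (h : Frame O A1 A2 A3 C)
    (hf : (A2 ⊔ A3) ⊓ (A1 ⊔ C) ≤ ((A1 ⊔ A3) ⊓ (A2 ⊔ C)) ⊔ ((A1 ⊔ A2) ⊓ (A3 ⊔ C))) :
    (2 : D) = 0 := by
  obtain ⟨x1, h1, x2, h2, x3, h3, hn, hy⟩ := h.pick
  have hm : x2 + x3 ∈ (A2 ⊔ A3) ⊓ (A1 ⊔ C) := by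
    refine ⟨Submodule.add_mem_sup h2 h3, ?_⟩
    have : x2 + x3 = -x1 + (x1 + x2 + x3) := by abel
    rw [this]; exact Submodule.add_mem_sup (A1.neg_mem h1) hy
  obtain ⟨p, ⟨hp1, hp2⟩, q, ⟨hq1, hq2⟩, e⟩ := Submodule.mem_sup.1 (hf hm)
  obtain ⟨p1, hp1', p3, hp3', ep⟩ := Submodule.mem_sup.1 hp1
  obtain ⟨r2, hr2, w, hw, ep'⟩ := Submodule.mem_sup.1 hp2
  obtain ⟨q1, hq1', q2, hq2', eq⟩ := Submodule.mem_sup.1 hq1
  obtain ⟨r3, hr3, w', hw', eq'⟩ := Submodule.mem_sup.1 hq2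
  obtain ⟨k1, k2, k3⟩ := h.ind (a := p1 + q1) (b := q2 - x2) (c := p3 - x3)
    (A1.add_mem hp1' hq1') (A2.sub_mem hq2' h2) (A3.sub_mem hp3' h3) (by
      have : p1 + q1 + (q2 - x2) + (p3 - x3) = (p1 + p3) + (q1 + q2) - (x2 + x3) := by abel
      rw [this, ep, eq, e, sub_self])
  have ew : w = p1 + p3 - r2 := by rw [ep, ← ep']; abel
  have ew' : w' = q1 + q2 - r3 := by rw [eq, ← eq']; abel
  have m1 : w - (x1 + x2 + x3) - (p3 - x3) ∈ O := by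
    refine h.c1 ⟨C.sub_mem (C.sub_mem hw hy) (h.oc k3), ?_⟩
    have : w - (x1 + x2 + x3) - (p3 - x3) = (p1 - x1) + (-r2 - x2) := by rw [ew]; abel
    rw [this]
    exact Submodule.add_mem_sup (A1.sub_mem hp1' h1) (A2.sub_mem (A2.neg_mem hr2) h2)
  have m2 : w' - (x1 + x2 + x3) - (q2 - x2) ∈ O := by
    refine h.c2 ⟨C.sub_mem (C.sub_mem hw' hy) (h.oc k2), ?_⟩
    have : w' - (x1 + x2 + x3) - (q2 - x2) = (q1 - x1) + (-r3 - x3) := by rw [ew']; abel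
    rw [this]
    exact Submodule.add_mem_sup (A1.sub_mem hq1' h1) (A3.sub_mem (A3.neg_mem hr3) h3)
  obtain ⟨l1, -, -⟩ := h.ind (a := p1 - x1) (b := -r2 - x2)
    (c := -(w - (x1 + x2 + x3) - (p3 - x3))) (A1.sub_mem hp1' h1)
    (A2.sub_mem (A2.neg_mem hr2) h2) (A3.neg_mem (h.o3 m1)) (by rw [ew]; abel)
  obtain ⟨l2, -, -⟩ := h.ind (a := q1 - x1) (b := -(w' - (x1 + x2 + x3) - (q2 - x2)))
    (c := -r3 - x3) (A1.sub_mem hq1' h1) (A2.neg_mem (h.o2 m2))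
    (A3.sub_mem (A3.neg_mem hr3) h3) (by rw [ew']; abel)
  have l3 : (2 : D) • x1 ∈ O := by
    have : (2 : D) • x1 = (p1 + q1) - (p1 - x1) - (q1 - x1) := by rw [two_smul]; abel
    rw [this]; exact O.sub_mem (O.sub_mem k1 l1) l2
  by_contra hne
  exact hn ((O.smul_mem_iff hne).1 l3)

lemma Frame.nonfano (h : Frame O A1 A2 A3 C)
    (hf : ((A2 ⊔ A3) ⊓ (A1 ⊔ C)) ⊓ (((A1 ⊔ A3) ⊓ (A2 ⊔ C)) ⊔ ((A1 ⊔ A2) ⊓ (A3 ⊔ C))) ≤ O) :
    (2 : D) ≠ 0 := by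
  intro h2'
  obtain ⟨x1, h1, x2, h2, x3, h3, hn, hy⟩ := h.pick
  have hx : x1 + x1 = 0 := by rw [← two_smul D, h2', zero_smul]
  have hm : x2 + x3 ∈ O := by
    refine hf ⟨⟨Submodule.add_mem_sup h2 h3, ?_⟩, ?_⟩
    · have : x2 + x3 = -x1 + (x1 + x2 + x3) := by abel
      rw [this]; exact Submodule.add_mem_sup (A1.neg_mem h1) hy
    · have : x2 + x3 = (x1 + x3) + (x1 + x2) := by
        rw [← zero_add (x2 + x3), ← hx]; abel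
      rw [this]
      refine Submodule.add_mem_sup ⟨Submodule.add_mem_sup h1 h3, ?_⟩
        ⟨Submodule.add_mem_sup h1 h2, ?_⟩
      · have : x1 + x3 = -x2 + (x1 + x2 + x3) := by abel
        rw [this]; exact Submodule.add_mem_sup (A2.neg_mem h2) hy
      · have : x1 + x2 = -x3 + (x1 + x2 + x3) := by abel
        rw [this]; exact Submodule.add_mem_sup (A3.neg_mem h3) hy
  apply hn
  refine h.c1 ⟨?_, Submodule.mem_sup_left h1⟩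
  have : x1 = (x1 + x2 + x3) - (x2 + x3) := by abel
  rw [this]; exact C.sub_mem hy (h.oc hm)

end Vec

section Grp
variable {G : Type} [AddCommGroup G] (H : AddSubgroup G)

def a1 : AddSubgroup (G × G × G) := H.prod ((⊥ : AddSubgroup G).prod ⊥)
def a2 : AddSubgroup (G × G × G) := (⊥ : AddSubgroup G).prod (H.prod ⊥)
def a3 : AddSubgroup (G × G × G) := (⊥ : AddSubgroup G).prod ((⊥ : AddSubgroup G).prod H)
def cc : AddSubgroup (G × G × G) :=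
  H.map ((AddMonoidHom.id G).prod ((AddMonoidHom.id G).prod (AddMonoidHom.id G)))

lemma m1 (x : G × G × G) : x ∈ a1 H ↔ x.1 ∈ H ∧ x.2.1 = 0 ∧ x.2.2 = 0 := by
  simp [a1, AddSubgroup.mem_prod, Prod.ext_iff]
lemma m2 (x : G × G × G) : x ∈ a2 H ↔ x.1 = 0 ∧ x.2.1 ∈ H ∧ x.2.2 = 0 := by
  simp [a2, AddSubgroup.mem_prod]
lemma m3 (x : G × G × G) : x ∈ a3 H ↔ x.1 = 0 ∧ x.2.1 = 0 ∧ x.2.2 ∈ H := by
  simp [a3, AddSubgroup.mem_prod]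
lemma mc (x : G × G × G) : x ∈ cc H ↔ x.1 ∈ H ∧ x.2.1 = x.1 ∧ x.2.2 = x.1 := by
  obtain ⟨a, b, c⟩ := x
  simp only [cc, AddSubgroup.mem_map, AddMonoidHom.prod_apply, AddMonoidHom.id_apply,
    Prod.mk.injEq]
  constructor
  · rintro ⟨y, hy, rfl, rfl, rfl⟩; exact ⟨hy, rfl, rfl⟩
  · rintro ⟨h, rfl, rfl⟩; exact ⟨_, h, rfl, rfl, rfl⟩

lemma s23 {x : G × G × G} (h : x ∈ a2 H ⊔ a3 H) : x.1 = 0 := by
  obtain ⟨y, hy, z, hz, rfl⟩ := AddSubgroup.mem_sup.1 h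
  rw [m2] at hy; rw [m3] at hz; simp [hy.1, hz.1]
lemma s13 {x : G × G × G} (h : x ∈ a1 H ⊔ a3 H) : x.2.1 = 0 := by
  obtain ⟨y, hy, z, hz, rfl⟩ := AddSubgroup.mem_sup.1 h
  rw [m1] at hy; rw [m3] at hz; simp [hy.2.1, hz.2.1]
lemma s12 {x : G × G × G} (h : x ∈ a1 H ⊔ a2 H) : x.2.2 = 0 := by
  obtain ⟨y, hy, z, hz, rfl⟩ := AddSubgroup.mem_sup.1 h
  rw [m1] at hy; rw [m2] at hz; simp [hy.2.2, hz.2.2]
lemma s1c {x : G × G × G} (h : x ∈ a1 H ⊔ cc H) : x.2.1 = x.2.2 ∧ x.2.1 ∈ H := by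
  obtain ⟨y, hy, z, hz, rfl⟩ := AddSubgroup.mem_sup.1 h
  rw [m1] at hy; rw [mc] at hz; simp [hy.2.1, hy.2.2, hz.2.1, hz.2.2, hz.1]
lemma s2c {x : G × G × G} (h : x ∈ a2 H ⊔ cc H) : x.1 = x.2.2 := by
  obtain ⟨y, hy, z, hz, rfl⟩ := AddSubgroup.mem_sup.1 h
  rw [m2] at hy; rw [mc] at hz; simp [hy.1, hy.2.2, hz.2.2]
lemma s3c {x : G × G × G} (h : x ∈ a3 H ⊔ cc H) : x.1 = x.2.1 := by
  obtain ⟨y, hy, z, hz, rfl⟩ := AddSubgroup.mem_sup.1 h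
  rw [m3] at hy; rw [mc] at hz; simp [hy.1, hy.2.1, hz.2.1]

lemma gfano (h2 : ∀ x ∈ H, x + x = 0) :
    (a2 H ⊔ a3 H) ⊓ (a1 H ⊔ cc H) ≤
      ((a1 H ⊔ a3 H) ⊓ (a2 H ⊔ cc H)) ⊔ ((a1 H ⊔ a2 H) ⊓ (a3 H ⊔ cc H)) := by
  rintro ⟨a, b, c⟩ ⟨hx, hy⟩
  have e1 := s23 H hx
  obtain ⟨e2, hb⟩ := s1c H hy
  simp only at e1 e2 hb
  subst e1 e2
  have hn : -b ∈ H := H.neg_mem hb
  refine AddSubgroup.mem_sup.2 ⟨(b, 0, b), ⟨?_, ?_⟩, (b, b, 0), ⟨?_, ?_⟩, ?_⟩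
  · exact AddSubgroup.mem_sup.2 ⟨(b, 0, 0), by simp [m1, hb], (0, 0, b), by simp [m3, hb], by simp⟩
  · exact AddSubgroup.mem_sup.2 ⟨(0, -b, 0), by simp [m2, hb], (b, b, b), by simp [mc, hb],
      by simp⟩
  · exact AddSubgroup.mem_sup.2 ⟨(b, 0, 0), by simp [m1, hb], (0, b, 0), by simp [m2, hb], by simp⟩
  · exact AddSubgroup.mem_sup.2 ⟨(0, 0, -b), by simp [m3, hb], (b, b, b), by simp [mc, hb],
      by simp⟩
  · simp [h2 b hb]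

lemma gnonfano (h2 : ∀ x ∈ H, x + x = 0 → x = 0) :
    ((a2 H ⊔ a3 H) ⊓ (a1 H ⊔ cc H)) ⊓
      (((a1 H ⊔ a3 H) ⊓ (a2 H ⊔ cc H)) ⊔ ((a1 H ⊔ a2 H) ⊓ (a3 H ⊔ cc H))) ≤ ⊥ := by
  rintro ⟨a, b, c⟩ ⟨⟨hx, hy⟩, hz⟩
  have e1 := s23 H hx
  obtain ⟨e2, hb⟩ := s1c H hy
  simp only at e1 e2 hb
  subst e1 e2
  obtain ⟨⟨p1, p2, p3⟩, ⟨hp, hp'⟩, ⟨q1, q2, q3⟩, ⟨hq, hq'⟩, e⟩ := AddSubgroup.mem_sup.1 hz
  have f1 := s13 H hp
  have f2 := s2c H hp'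
  have f3 := s12 H hq
  have f4 := s3c H hq'
  simp only at f1 f2 f3 f4
  subst f1 f2 f3 f4
  simp only [Prod.mk_add_mk, Prod.mk.injEq, zero_add, add_zero] at e
  obtain ⟨g1, g2, g3⟩ := e
  subst g2 g3
  simp [h2 _ hb g1]

end Grp

section Map
variable {D : Type u} [DivisionRing D] {V : Type v} [AddCommGroup V] [Module D V]
variable {G : Type} [AddCommGroup G]

lemma mono {f : AddSubgroup (G × G × G) → Submodule D V}
    (hm : ∀ x y, f (x ⊓ y) = f x ⊓ f y) {x y : AddSubgroup (G × G × G)} (h : x ≤ y) :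
    f x ≤ f y := by
  rw [← inf_eq_left, ← hm, inf_eq_left.2 h]

lemma frame {f : AddSubgroup (G × G × G) → Submodule D V} (hi : Function.Injective f)
    (hm : ∀ x y, f (x ⊓ y) = f x ⊓ f y) (hj : ∀ x y, f (x ⊔ y) = f x ⊔ f y)
    (H : AddSubgroup G) {g : G} (hg : g ∈ H) (hg0 : g ≠ 0) :
    Frame (f ⊥) (f (a1 H)) (f (a2 H)) (f (a3 H)) (f (cc H)) where
  o1 := mono hm bot_le
  o2 := mono hm bot_le
  o3 := mono hm bot_le
  oc := mono hm bot_le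
  ne := by
    intro h
    have e : a1 H = ⊥ := hi (le_antisymm h (mono hm bot_le))
    have : ((g, 0, 0) : G × G × G) ∈ a1 H := by simp [m1, hg]
    rw [e] at this
    simp [hg0] at this
  top := by
    rw [← hj, ← hj]
    refine mono hm ?_
    rintro ⟨a, b, c⟩ hx
    rw [m1] at hx
    obtain ⟨ha, hb, hc⟩ := hx
    simp only at ha hb hc
    subst hb hc
    refine AddSubgroup.mem_sup.2 ⟨(a, a, a), by simp [mc, ha], (0, -a, -a), ?_, by simp⟩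
    exact AddSubgroup.mem_sup.2 ⟨(0, -a, 0), by simp [m2, ha], (0, 0, -a), by simp [m3, ha],
      by simp⟩
  i1 := by
    rw [← hj, ← hm]
    refine mono hm ?_
    rintro ⟨a, b, c⟩ ⟨hx, hy⟩
    have h1 := (m1 H _).1 hx
    have h2 := s23 H hy
    simp only at h1 h2
    simp [h1.2.1, h1.2.2, h2]
  i2 := by
    rw [← hj, ← hm]
    refine mono hm ?_
    rintro ⟨a, b, c⟩ ⟨hx, hy⟩
    have h1 := (m2 H _).1 hx
    have h2 := s13 H hy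
    simp only at h1 h2
    simp [h1.1, h1.2.2, h2]
  i3 := by
    rw [← hj, ← hm]
    refine mono hm ?_
    rintro ⟨a, b, c⟩ ⟨hx, hy⟩
    have h1 := (m3 H _).1 hx
    have h2 := s12 H hy
    simp only at h1 h2
    simp [h1.1, h1.2.1, h2]
  c1 := by
    rw [← hj, ← hm]
    refine mono hm ?_
    rintro ⟨a, b, c⟩ ⟨hx, hy⟩
    have h1 := (mc H _).1 hx
    have h2 := s12 H hy
    simp only at h1 h2
    obtain ⟨-, rfl, rfl⟩ := h1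
    simp [h2]
  c2 := by
    rw [← hj, ← hm]
    refine mono hm ?_
    rintro ⟨a, b, c⟩ ⟨hx, hy⟩
    have h1 := (mc H _).1 hx
    have h2 := s13 H hy
    simp only at h1 h2
    obtain ⟨-, rfl, rfl⟩ := h1
    simp [h2]

end Map

theorem result : ∃ (A : Type) (_ : AddCommGroup A), Finite A ∧
    ∀ (D : Type u) [DivisionRing D] (V : Type v) [AddCommGroup V] [Module D V],
      ¬ ∃ f : AddSubgroup A → Submodule D V, Function.Injective f ∧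
        (∀ x y, f (x ⊓ y) = f x ⊓ f y) ∧ (∀ x y, f (x ⊔ y) = f x ⊔ f y) := by
  refine ⟨ZMod 6 × ZMod 6 × ZMod 6, inferInstance, inferInstance, ?_⟩
  intro D _ V _ _ ⟨f, hi, hm, hj⟩
  let H2 : AddSubgroup (ZMod 6) := (AddMonoidHom.mulLeft (2 : ZMod 6)).ker
  let H3 : AddSubgroup (ZMod 6) := (AddMonoidHom.mulLeft (3 : ZMod 6)).ker
  have e2 : ∀ x, x ∈ H2 ↔ (2 : ZMod 6) * x = 0 := fun x => by simp [H2]
  have e3 : ∀ x, x ∈ H3 ↔ (3 : ZMod 6) * x = 0 := fun x => by simp [H3]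
  have F2 := frame hi hm hj H2 (g := 3) ((e2 _).2 (by decide)) (by decide)
  have F3 := frame hi hm hj H3 (g := 2) ((e3 _).2 (by decide)) (by decide)
  refine F3.nonfano ?_ (F2.fano ?_)
  · simp only [← hj, ← hm]
    refine mono hm (gnonfano H3 ?_)
    intro x hx
    rw [e3] at hx
    revert x
    decide
  · simp only [← hj, ← hm]
    refine mono hm (gfano H2 ?_)
    intro x hx
    rw [e2] at hx
    revert x
    decide

end Pool.Agent.Results.MP_0a2dc5_al.NoEmbed
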